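import Pool.Agent.EDG.Stmts

/-! Row QDG (squad EDG): degree and leading coefficient of `Q j`. -/

set_option autoImplicit false

namespace Pool.Agent.EDG.H78

open Polynomial Finset

theorem yp_deg : ∀ i : ℕ, (Yp (i + 1)).natDegree = 2 ^ (i + 1) ∧
    ((Yp (i + 1)).leadingCoeff = 1 ∨ (Yp (i + 1)).leadingCoeff = -1) := by
  intro i
  induction i with
  | zero =>
    have h1 : Yp (0 + 1) = -(X ^ 2) := by
      rw [Yp_succ, Yp_zero]; ring
    rw [h1, natDegree_neg, natDegree_X_pow, leadingCoeff_neg, leadingCoeff_X_pow]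
    exact ⟨by norm_num, Or.inr rfl⟩
  | succ i ih =>
    obtain ⟨h1, h2⟩ := ih
    have hne : Yp (i + 1) ≠ 0 := by
      intro h0
      rw [h0, leadingCoeff_zero] at h2
      rcases h2 with h2 | h2 <;> norm_num at h2
    have h3 : (Yp (i + 1) ^ 2).natDegree = 2 ^ (i + 1 + 1) := by
      rw [natDegree_pow, h1]; ring
    have h4 : (2 * X * Yp (i + 1) : ℤ[X]).natDegree < (Yp (i + 1) ^ 2).natDegree := by
      rw [h3]
      have h5 : (2 * X * Yp (i + 1) : ℤ[X]).natDegree ≤ 1 + 2 ^ (i + 1) := by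
        refine natDegree_mul_le.trans ?_
        rw [h1]
        have h6 : (2 * X : ℤ[X]).natDegree ≤ 1 := by
          have : (2 * X : ℤ[X]) = C 2 * X := by simp
          rw [this]
          exact (natDegree_C_mul_le _ _).trans natDegree_X_le
        omega
      have h7 : 2 ≤ 2 ^ (i + 1) := by
        calc 2 = 2 ^ 1 := by norm_num
          _ ≤ 2 ^ (i + 1) := Nat.pow_le_pow_right (by norm_num) (by omega)
      have h8 : 2 ^ (i + 1 + 1) = 2 ^ (i + 1) + 2 ^ (i + 1) := by ring
      omega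
    rw [Yp_succ]
    refine ⟨?_, ?_⟩
    · rw [natDegree_add_eq_left_of_natDegree_lt h4, h3]
    · left
      rw [leadingCoeff_add_of_degree_lt' (degree_lt_degree h4), leadingCoeff_pow]
      rcases h2 with h2 | h2 <;> rw [h2] <;> norm_num

theorem yp_deg' (i : ℕ) : (Yp i).natDegree = 2 ^ i ∧
    ((Yp i).leadingCoeff = 1 ∨ (Yp i).leadingCoeff = -1) := by
  cases i with
  | zero =>
    rw [Yp_zero, natDegree_neg, natDegree_X, leadingCoeff_neg, leadingCoeff_X]
    exact ⟨by norm_num, Or.inr rfl⟩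
  | succ i => exact yp_deg i

theorem hdeg (j : ℕ) : ∀ i : ℕ, (ev (X : ℤ[X]) (Yp i) (h j)).natDegree = 2 ^ i * j ∧
    ((ev (X : ℤ[X]) (Yp i) (h j)).leadingCoeff = 1 ∨
      (ev (X : ℤ[X]) (Yp i) (h j)).leadingCoeff = -1) := by
  induction j using Nat.strong_induction_on with
  | _ j ih =>
    intro i
    rcases Nat.even_or_odd' j with ⟨k, hk | hk⟩
    · rcases Nat.eq_zero_or_pos k with h0 | h0
      · subst h0; subst hk
        rw [mul_zero, h_zero, map_one, natDegree_one, leadingCoeff_one, mul_zero]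
        exact ⟨rfl, Or.inl rfl⟩
      · obtain ⟨h1, h2⟩ := ih k (by omega) (i + 1)
        rw [hk, h_two_mul, ev_comp_F_Yp]
        refine ⟨?_, h2⟩
        rw [h1, pow_succ]; ring
    · obtain ⟨h1, h2⟩ := ih k (by omega) (i + 1)
      obtain ⟨h3, h4⟩ := yp_deg' i
      rw [hk, h_two_mul_add_one, map_mul, ev_X, ev_comp_F_Yp]
      have hne1 : Yp i ≠ 0 := by
        intro h0
        rw [h0, leadingCoeff_zero] at h4
        rcases h4 with h4 | h4 <;> norm_num at h4
      have hne2 : ev (X : ℤ[X]) (Yp (i + 1)) (h k) ≠ 0 := by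
        intro h0
        rw [h0, leadingCoeff_zero] at h2
        rcases h2 with h2 | h2 <;> norm_num at h2
      refine ⟨?_, ?_⟩
      · rw [natDegree_mul hne1 hne2, h1, h3, pow_succ]; ring
      · rw [leadingCoeff_mul]
        rcases h2 with h2 | h2 <;> rcases h4 with h4 | h4 <;> rw [h2, h4] <;> norm_num

theorem qdg : QdgStmt := by
  intro j
  have h1 := hdeg j 0
  rw [pow_zero, one_mul, Yp_zero] at h1
  exact h1

end Pool.Agent.EDG.H78
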